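import Mathlib
import Pool.Agent.V5helper24.CR.DPL
import Pool.Agent.V5helper51.CR6.Stm

/-!
# Project CR6, job DP6: Dirichlet polynomials over `χ Λ` and `χ μ` in mean square up to `X^{5/6 - ε}`
-/

set_option autoImplicit false

namespace Pool.Agent.V5helper9.CR6

open Finset Filter MeasureTheory
open Pool.Agent.Q236.CR
open Pool.Agent.V5helper24.CR
open Pool.Agent.V5helper51.CR6

/-- the statement for one number of factors -/
def Piece6 (ε : ℝ) (B U r Cm X₀ : ℕ) : Prop :=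
  ∀ X : ℕ, X₀ ≤ X → ∀ (q : ℕ) (_ : NeZero q), (q : ℝ) ≤ Real.log X ^ B → ∀ χ : DirichletCharacter ℂ q,
  ∀ z : ℕ, (z : ℝ) ≤ 8 * (X : ℝ) ^ (1 / 3 : ℝ) → ∀ F : Fin r → ℕ → ℂ,
  (∀ i, Ty (fun n => χ (n : ZMod q)) z (F i)) →
  ∀ T0 : ℝ, Real.log X ^ Cm ≤ T0 → T0 ≤ (X : ℝ) ^ (5 / 6 - ε : ℝ) →
  ∀ x1 x2 : ℕ, X ≤ x1 → x2 ≤ 9 * X →
    ∫ τ in T0..(2 * T0), ‖PD F x1 x2 τ‖ ^ 2 ≤ (X : ℝ) ^ 2 / Real.log X ^ U ∧
    ∫ τ in (-(2 * T0))..(-T0), ‖PD F x1 x2 τ‖ ^ 2 ≤ (X : ℝ) ^ 2 / Real.log X ^ U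

lemma piece6 (hMVH : S_MVH) (hCEL : S_CEL) (ε : ℝ) (hε : 0 < ε) (B U r : ℕ) (hr1 : 1 ≤ r) (hr6 : r ≤ 6) :
    ∃ Cm X₀, Piece6 ε B U r Cm X₀ := by
  obtain ⟨K, X₁, hM⟩ := hMVH r U hr1
  obtain ⟨Cm, X₂, hC⟩ := hCEL ε hε B K
  refine ⟨Cm, max X₁ (max X₂ 64), ?_⟩
  intro X hX q hqz hq χ z hz F hF T0 hT0 hT x1 x2 hx1 hx2
  have hX1 : X₁ ≤ X := (le_max_left _ _).trans hX
  have hX2 : X₂ ≤ X := ((le_max_left _ _).trans (le_max_right _ _)).trans hX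
  have hX64 : 64 ≤ X := ((le_max_right _ _).trans (le_max_right _ _)).trans hX
  have hX64' : (64 : ℝ) ≤ X := by exact_mod_cast hX64
  have hX1' : (1 : ℝ) ≤ X := by linarith
  have hX0' : (0 : ℝ) < X := by linarith
  have hL0 : 0 ≤ Real.log X := Real.log_nonneg hX1'
  have hT00 : 0 ≤ T0 := (pow_nonneg hL0 _).trans hT0
  have hTX : 2 * T0 ≤ X := by
    have h1 : (X : ℝ) ^ (5 / 6 - ε : ℝ) ≤ (X : ℝ) ^ (5 / 6 : ℝ) :=
      Real.rpow_le_rpow_of_exponent_le hX1' (by linarith)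
    have h2 : (2 : ℝ) ≤ (X : ℝ) ^ (1 / 6 : ℝ) := by
      have h3 : (64 : ℝ) ^ (1 / 6 : ℝ) ≤ (X : ℝ) ^ (1 / 6 : ℝ) :=
        Real.rpow_le_rpow (by norm_num) hX64' (by norm_num)
      have h4 : (64 : ℝ) ^ (1 / 6 : ℝ) = 2 := by
        rw [show (64 : ℝ) = 2 ^ (6 : ℝ) by norm_num, ← Real.rpow_mul (by norm_num)]
        norm_num
      rwa [h4] at h3
    have h5 : (X : ℝ) = (X : ℝ) ^ (1 / 6 : ℝ) * (X : ℝ) ^ (5 / 6 : ℝ) := by
      rw [← Real.rpow_add hX0']; norm_num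
    have h6 : 0 ≤ (X : ℝ) ^ (5 / 6 : ℝ) := by positivity
    calc 2 * T0 ≤ 2 * (X : ℝ) ^ (5 / 6 : ℝ) := by linarith
      _ ≤ (X : ℝ) ^ (1 / 6 : ℝ) * (X : ℝ) ^ (5 / 6 : ℝ) := mul_le_mul_of_nonneg_right h2 h6
      _ = X := h5.symm
  have hg : ∀ n : ℕ, ‖(fun n : ℕ => χ (n : ZMod q)) n‖ ≤ 1 := fun n =>
    DirichletCharacter.norm_le_one χ (n : ZMod q)
  refine hM X hX1 T0 (2 * T0) hT00 (by linarith) hTX F
    (fun i n => norm_Ty _ hg z (F i) (hF i) n) ?_ x1 x2 hx1 hx2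
  intro M u v hMuv hM2 hM3
  exact hC X hX2 q hqz hq χ r hr1 hr6 T0 hT0 hT z hz F hF M u v hMuv hM2 hM3

/-- uniform version -/
lemma piece6_unif (hMVH : S_MVH) (hCEL : S_CEL) (ε : ℝ) (hε : 0 < ε) (B U : ℕ) :
    ∃ Cm X₀, ∀ r, 1 ≤ r → r ≤ 6 → Piece6 ε B U r Cm X₀ := by
  have h : ∀ r : ℕ, ∃ p : ℕ × ℕ, 1 ≤ r → r ≤ 6 → Piece6 ε B U r p.1 p.2 := by
    intro r
    by_cases hr : 1 ≤ r ∧ r ≤ 6
    · obtain ⟨Cm, X₀, h⟩ := piece6 hMVH hCEL ε hε B U r hr.1 hr.2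
      exact ⟨(Cm, X₀), fun _ _ => h⟩
    · exact ⟨(0, 0), fun h1 h2 => absurd ⟨h1, h2⟩ hr⟩
  choose p hp using h
  refine ⟨∑ r ∈ Finset.range 7, (p r).1, (∑ r ∈ Finset.range 7, (p r).2) + 3, ?_⟩
  intro r hr1 hr6 X hX q hqz hq χ z hz F hF T0 hT0 hT x1 x2 hx1 hx2
  have h1 : (p r).1 ≤ ∑ r ∈ Finset.range 7, (p r).1 :=
    Finset.single_le_sum (f := fun r => (p r).1) (fun _ _ => Nat.zero_le _) (Finset.mem_range.mpr (by omega))
  have h2 : (p r).2 ≤ ∑ r ∈ Finset.range 7, (p r).2 :=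
    Finset.single_le_sum (f := fun r => (p r).2) (fun _ _ => Nat.zero_le _) (Finset.mem_range.mpr (by omega))
  have hX3 : 3 ≤ X := by omega
  have hL1 : 1 ≤ Real.log X := by
    have h3 : (3 : ℝ) ≤ X := by exact_mod_cast hX3
    have h4 := one_le_log3 0
    have h5 := Real.log_le_log (by norm_num) h3
    simp only [Nat.cast_zero, zero_add] at h4
    linarith
  have hmono := pow_le_pow_right₀ hL1 h1
  exact hp r hr1 hr6 X (by omega) q hqz hq χ z hz F hF T0 (hmono.trans hT0) hT x1 x2 hx1 hx2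

/-- from three products to `c`, on the whole range -/
lemma total6 (ε : ℝ) (hε : 0 < ε) (B U Cm X₀ : ℕ) (hpc : ∀ r, 1 ≤ r → r ≤ 6 → Piece6 ε B (U + 2) r Cm X₀)
    (X : ℕ) (hX : X₀ ≤ X) (hL : 162 ≤ Real.log X) (q : ℕ) (hqz : NeZero q) (hq : (q : ℝ) ≤ Real.log X ^ B)
    (χ : DirichletCharacter ℂ q) (z : ℕ) (hz : (z : ℝ) ≤ 8 * (X : ℝ) ^ (1 / 3 : ℝ)) (C₀ : ℕ) (hC₀ : Cm ≤ C₀)
    (T : ℝ) (hT1 : T ≤ (X : ℝ) ^ (5 / 6 - ε : ℝ)) (hT2 : Real.log X ^ C₀ ≤ T)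
    (x1 x2 : ℕ) (hx1 : X ≤ x1) (hx2 : x2 ≤ 9 * X)
    (rr : ℕ → ℕ) (hrr : ∀ j, j < 3 → 1 ≤ rr j ∧ rr j ≤ 6)
    (F : ∀ j, Fin (rr j) → ℕ → ℂ) (hF : ∀ j i, Ty (fun n => χ (n : ZMod q)) z (F j i)) (c : ℕ → ℂ)
    (hc : ∀ n ∈ Ioc x1 x2, c n = ∑ j ∈ Finset.range 3, (-1 : ℂ) ^ j * ((3).choose (j + 1) : ℂ) * TS (F j) x2 n) :
    ∫ τ in (Real.log X ^ C₀)..T, ‖∑ n ∈ Finset.Ioc x1 x2, c n * nt τ n‖ ^ 2 ≤ (X : ℝ) ^ 2 / Real.log X ^ U ∧
    ∫ τ in (-T)..(-Real.log X ^ C₀), ‖∑ n ∈ Finset.Ioc x1 x2, c n * nt τ n‖ ^ 2 ≤ (X : ℝ) ^ 2 / Real.log X ^ U := by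
  set L := Real.log X with hLdef
  have hL1 : 1 ≤ L := by linarith
  have hL0 : 0 < L := by linarith
  have hX0 : (0 : ℝ) < X := by
    rcases Nat.eq_zero_or_pos X with h | h
    · exfalso
      rw [hLdef, h] at hL; simp at hL; linarith
    · exact_mod_cast h
  have hX1 : (1 : ℝ) ≤ X := by exact_mod_cast (by exact_mod_cast hX0 : 0 < X)
  have hcs : Continuous (fun τ => ∑ n ∈ Ioc x1 x2, c n * nt τ n) := by
    apply continuous_finsetSum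
    intro n hn
    apply Continuous.mul continuous_const
    apply cont_nt
    simp only [Finset.mem_Ioc] at hn
    omega
  have ha : 1 ≤ L ^ C₀ := one_le_pow₀ hL1
  have hTX : Real.log T ≤ L := by
    have hT0 : 0 < T := by linarith
    have h1 : T ≤ X := by
      have h3 : (X : ℝ) ^ (5 / 6 - ε : ℝ) ≤ (X : ℝ) ^ (1 : ℝ) :=
        Real.rpow_le_rpow_of_exponent_le hX1 (by linarith)
      rw [Real.rpow_one] at h3
      linarith
    exact Real.log_le_log hT0 h1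
  set E := (X : ℝ) ^ 2 / L ^ (U + 2) with hE
  have hE0 : 0 ≤ E := by positivity
  have hfin : 2 * L * (81 * E) ≤ (X : ℝ) ^ 2 / L ^ U := by
    have e : 2 * L * (81 * E) = 162 * ((X : ℝ) ^ 2 / L ^ U * (1 / L)) := by
      rw [hE, pow_add]; field_simp; norm_num
    rw [e]
    calc 162 * ((X : ℝ) ^ 2 / L ^ U * (1 / L)) ≤ L * ((X : ℝ) ^ 2 / L ^ U * (1 / L)) :=
          mul_le_mul_of_nonneg_right hL (by positivity)
      _ = (X : ℝ) ^ 2 / L ^ U := by field_simp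
  have hmono : L ^ Cm ≤ L ^ C₀ := pow_le_pow_right₀ hL1 hC₀
  have hpiece : ∀ t, L ^ C₀ ≤ t → t < T → ∀ j, j < 3 →
      (∫ τ in t..(2 * t), ‖PD (F j) x1 x2 τ‖ ^ 2 ≤ E ∧
       ∫ τ in (-(2 * t))..(-t), ‖PD (F j) x1 x2 τ‖ ^ 2 ≤ E) := by
    intro t ht1 ht2 j hj
    exact hpc (rr j) (hrr j hj).1 (hrr j hj).2 X hX q hqz hq χ z hz (F j) (hF j) t
      (hmono.trans ht1) (ht2.le.trans hT1) x1 x2 hx1 hx2
  constructor
  · refine (dyad (fun τ => ‖∑ n ∈ Finset.Ioc x1 x2, c n * nt τ n‖ ^ 2) (hcs.norm.pow 2)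
      (fun x => by positivity) (L ^ C₀) T (81 * E) L ha hT2 hTX (by linarith) (by positivity) ?_).trans hfin
    intro t ht1 ht2
    exact combine_int rr F c x1 x2 hc t (2 * t) E (by linarith) (fun j hj => (hpiece t ht1 ht2 j hj).1)
  · rw [← intervalIntegral.integral_comp_neg (f := fun τ => ‖∑ n ∈ Finset.Ioc x1 x2, c n * nt τ n‖ ^ 2)]
    refine (dyad (fun τ => ‖∑ n ∈ Finset.Ioc x1 x2, c n * nt (-τ) n‖ ^ 2)
      ((hcs.comp continuous_neg).norm.pow 2)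
      (fun x => by positivity) (L ^ C₀) T (81 * E) L ha hT2 hTX (by linarith) (by positivity) ?_).trans hfin
    intro t ht1 ht2
    rw [intervalIntegral.integral_comp_neg (f := fun τ => ‖∑ n ∈ Finset.Ioc x1 x2, c n * nt τ n‖ ^ 2)]
    exact combine_int rr F c x1 x2 hc (-(2 * t)) (-t) E (by linarith)
      (fun j hj => (hpiece t ht1 ht2 j hj).2)

/-- **DP6** -/
theorem dp6 : S_HB3 → S_MVH → S_CEL → S_DP6 := by
  intro hHB hMVH hCEL ε hε B U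
  obtain ⟨Cm, X₁, hpc⟩ := piece6_unif hMVH hCEL ε hε B (U + 2)
  obtain ⟨X₂, hX₂⟩ := exists_log_ge 162
  refine ⟨Cm, fun C₀ hC₀ => ⟨Cm, max X₁ (max X₂ 1), ?_⟩⟩
  intro X hX q hqz hq χ T hT1 hT2 x1 x2 hx1 hx2 c hc
  have hX1 : X₁ ≤ X := (le_max_left _ _).trans hX
  have hX2 : X₂ ≤ X := ((le_max_left _ _).trans (le_max_right _ _)).trans hX
  have hX3 : 1 ≤ X := ((le_max_right _ _).trans (le_max_right _ _)).trans hX
  have hX3' : (1 : ℝ) ≤ X := by exact_mod_cast hX3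
  have hL := hX₂ X hX2
  have hTT : T ≤ (X : ℝ) ^ (5 / 6 - ε : ℝ) := by
    have e : (1 - (1 / 6 + ε) : ℝ) = 5 / 6 - ε := by ring
    rw [e] at hT1
    have h1 : (1 : ℝ) ≤ Real.log X ^ Cm := one_le_pow₀ (by linarith)
    have h2 : 0 ≤ T := le_trans (by positivity) hT2
    nlinarith
  set Y : ℝ := (X : ℝ) ^ (1 / 3 : ℝ) with hY
  have hY1 : 1 ≤ Y := Real.one_le_rpow hX3' (by norm_num)
  have hY3 : Y ^ 3 = X := by
    rw [hY, ← Real.rpow_natCast, ← Real.rpow_mul (by positivity)]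
    norm_num
  set z : ℕ := ⌈3 * Y⌉₊ with hz
  have hz1 : 3 * Y ≤ z := Nat.le_ceil _
  have hz2 : (z : ℝ) ≤ 4 * Y := by
    have := (Nat.ceil_lt_add_one (by positivity : 0 ≤ 3 * Y)).le
    linarith
  have hz3 : (z : ℝ) ≤ 8 * Y := by linarith
  have hz4 : 9 * X ≤ z ^ 3 := by
    have := pow_le_pow_left₀ (by positivity) hz1 3
    have e : (3 * Y) ^ 3 = 27 * X := by rw [← hY3]; ring
    have h1 : (9 * X : ℝ) ≤ (z : ℝ) ^ 3 := by linarith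
    exact_mod_cast h1
  have hmul : ∀ m n : ℕ, (fun n : ℕ => χ (n : ZMod q)) (m * n) =
      (fun n : ℕ => χ (n : ZMod q)) m * (fun n : ℕ => χ (n : ZMod q)) n := by
    intro m n
    simp only [Nat.cast_mul, map_mul]
  have hone : (fun n : ℕ => χ (n : ZMod q)) 1 = 1 := by simp
  have hid := hHB (fun n : ℕ => χ (n : ZMod q)) hmul hone z x2
  rcases hc with hc | hc
  · refine total6 ε hε B U Cm X₁ hpc X hX1 hL q hqz hq χ z hz3 C₀ hC₀ T hTT hT2 x1 x2 hx1 hx2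
      (fun j => (j + 1) + (j + 1)) (fun j hj => by constructor <;> omega)
      (fun j => HBL (fun n : ℕ => χ (n : ZMod q)) z j) ?_ c ?_
    · intro j i
      refine Fin.addCases (fun i => ?_) (fun i => ?_) i
      · left
        funext n
        simp only [HBL, Fin.addCases_left]
      · by_cases hij : (i : ℕ) = j
        · right; right
          funext n
          simp only [HBL, Fin.addCases_right, hij, if_true]
        · right; left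
          funext n
          simp only [HBL, Fin.addCases_right, hij, if_false]
    · intro n hn
      simp only [Finset.mem_Ioc] at hn
      rw [hc]
      exact (hid n (by omega) hn.2 (by omega)).1
  · refine total6 ε hε B U Cm X₁ hpc X hX1 hL q hqz hq χ z hz3 C₀ hC₀ T hTT hT2 x1 x2 hx1 hx2
      (fun j => (j + 1) + j) (fun j hj => by constructor <;> omega)
      (fun j => HBM (fun n : ℕ => χ (n : ZMod q)) z j) ?_ c ?_
    · intro j i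
      refine Fin.addCases (fun i => ?_) (fun i => ?_) i
      · left
        funext n
        simp only [HBM, Fin.addCases_left]
      · right; left
        funext n
        simp only [HBM, Fin.addCases_right]
    · intro n hn
      simp only [Finset.mem_Ioc] at hn
      rw [hc]
      exact (hid n (by omega) hn.2 (by omega)).2

end Pool.Agent.V5helper9.CR6
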