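import Mathlib
import Pool.Agent.V5helper24.CR.SIC
import Pool.Agent.V5helper51.CR6.Stm

/-!
# Project CR6, job SIT: from `DPLt` to almost all short intervals, general exponent
-/

set_option autoImplicit false

namespace Pool.Agent.V5helper9.CR6

open Finset Filter MeasureTheory
open Pool.Agent.Q236.CR
open Pool.Agent.V5helper24.CR
open Pool.Agent.V5helper51.CR6

lemma int_bound2 (g : ℝ → ℝ) (hg : Continuous g) (A x a T B : ℝ) (hA : 0 ≤ A) (hB : 0 ≤ B) (ha : 0 < a)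
    (haT : a ≤ T) (h : ∀ τ, a ≤ τ → τ ≤ T → g τ ≤ A * (x ^ 2 / τ ^ 2 + B)) :
    ∫ τ in a..T, g τ ≤ A * (x ^ 2 / a + B * T) := by
  have hpos : ∀ τ ∈ Set.uIcc a T, 0 < τ := by
    intro τ hτ
    rw [Set.uIcc_of_le haT] at hτ
    exact ha.trans_le hτ.1
  have hcont : ContinuousOn (fun τ : ℝ => A * (x ^ 2 / τ ^ 2 + B)) (Set.uIcc a T) := by
    apply ContinuousOn.mul continuousOn_const
    apply ContinuousOn.add _ continuousOn_const
    apply ContinuousOn.div continuousOn_const (continuousOn_id.pow 2)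
    intro τ hτ
    have := hpos τ hτ
    show τ ^ 2 ≠ 0
    positivity
  have h1 : ∫ τ in a..T, g τ ≤ ∫ τ in a..T, A * (x ^ 2 / τ ^ 2 + B) := by
    apply intervalIntegral.integral_mono_on haT (hg.intervalIntegrable _ _) hcont.intervalIntegrable
    intro τ hτ
    exact h τ hτ.1 hτ.2
  have h2 : ∫ τ in a..T, A * (x ^ 2 / τ ^ 2 + B) =
      A * (-(x ^ 2) / T + B * T) - A * (-(x ^ 2) / a + B * a) := by
    apply intervalIntegral.integral_eq_sub_of_hasDerivAt (f := fun τ => A * (-(x ^ 2) / τ + B * τ)) _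
      hcont.intervalIntegrable
    intro τ hτ
    have hτ0 := hpos τ hτ
    have h3 : HasDerivAt (fun τ : ℝ => -(x ^ 2) / τ) (x ^ 2 / τ ^ 2) τ := by
      have := (hasDerivAt_inv hτ0.ne').const_mul (-(x ^ 2))
      have e1 : (fun τ : ℝ => -(x ^ 2) / τ) = fun τ => -(x ^ 2) * τ⁻¹ := by
        funext y; rw [div_eq_mul_inv]
      have e2 : x ^ 2 / τ ^ 2 = -(x ^ 2) * -(τ ^ 2)⁻¹ := by
        rw [div_eq_mul_inv]; ring
      rw [e1, e2]
      exact this
    have h4 : HasDerivAt (fun τ : ℝ => B * τ) B τ := by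
      simpa using (hasDerivAt_id τ).const_mul B
    exact (h3.add h4).const_mul A
  rw [h2] at h1
  have hT : 0 < T := by linarith
  have h3 : 0 ≤ A * (x ^ 2 / T) := by positivity
  have h4 : 0 ≤ A * (B * a) := by positivity
  have e : A * (-(x ^ 2) / T + B * T) - A * (-(x ^ 2) / a + B * a) =
      A * (x ^ 2 / a + B * T) - A * (x ^ 2 / T) - A * (B * a) := by ring
  rw [e] at h1
  linarith

/-- the sum of `n^{-iτ}` over `(x, 9x]`, from SMB with `q = 1` -/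
lemma sum_nt2 (Cs : ℝ) (hCs : 1 ≤ Cs)
    (hS : ∀ (q : ℕ) (_ : NeZero q) (χ : DirichletCharacter ℂ q) (M u v : ℕ) (τ : ℝ),
      1 ≤ M → M ≤ u + 1 → v ≤ 2 * M → 1 ≤ |τ| →
      ‖∑ n ∈ Finset.Ioc u v, χ (n : ZMod q) * nt τ n‖ ≤
        Cs * q ^ 2 * (√|τ| + M / |τ|) * (1 + Real.log M) ∧
      ‖∑ n ∈ Finset.Ioc u v, (χ (n : ZMod q) * (Real.log n : ℂ)) * nt τ n‖ ≤
        Cs * q ^ 2 * (√|τ| + M / |τ|) * (1 + Real.log M) ^ 2)
    (x : ℕ) (hx : 1 ≤ x) (L : ℝ) (hL : Real.log (8 * x) + 1 ≤ 2 * L) (τ : ℝ) (hτ : 1 ≤ |τ|) :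
    ‖∑ n ∈ Finset.Ioc x (9 * x), nt τ n‖ ≤ 30 * Cs * L * (√|τ| + x / |τ|) := by
  have hx' : (1 : ℝ) ≤ x := by exact_mod_cast hx
  have h : ∀ k M u v : ℕ, 1 ≤ k → k ≤ 8 → M = k * x → M ≤ u + 1 → v ≤ 2 * M →
      ‖∑ n ∈ Finset.Ioc u v, nt τ n‖ ≤ 2 * Cs * L * (√|τ| + k * (x / |τ|)) := by
    intro k M u v hk1 hk2 hM h2 h3
    have hM1 : 1 ≤ M := by rw [hM]; exact Nat.mul_pos hk1 hx
    have := (hS 1 inferInstance 1 M u v τ hM1 h2 h3 hτ).1
    have e : ∑ n ∈ Finset.Ioc u v, (1 : DirichletCharacter ℂ 1) (n : ZMod 1) * nt τ n =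
        ∑ n ∈ Finset.Ioc u v, nt τ n := by
      apply Finset.sum_congr rfl
      intro n _
      have : (1 : DirichletCharacter ℂ 1) (n : ZMod 1) = 1 := by
        have hn : (n : ZMod 1) = 1 := Subsingleton.elim _ _
        rw [hn, map_one]
      rw [this, one_mul]
    rw [e] at this
    refine this.trans ?_
    have e1 : (M : ℝ) = k * x := by rw [hM]; push_cast; ring
    have hM1' : (1 : ℝ) ≤ M := by exact_mod_cast hM1
    have h4 : Real.log M ≤ Real.log (8 * x) := by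
      refine Real.log_le_log (by linarith) ?_
      rw [e1]
      exact mul_le_mul_of_nonneg_right (by exact_mod_cast hk2) (by linarith)
    have h5 : 1 + Real.log M ≤ 2 * L := by linarith
    rw [e1]
    push_cast
    calc Cs * 1 ^ 2 * (√|τ| + k * x / |τ|) * (1 + Real.log (k * x)) ≤
        Cs * 1 ^ 2 * (√|τ| + k * x / |τ|) * (2 * L) := by
          rw [← e1]
          refine mul_le_mul_of_nonneg_left h5 (by positivity)
      _ = 2 * Cs * L * (√|τ| + k * (x / |τ|)) := by ring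
  have e : ∑ n ∈ Finset.Ioc x (9 * x), nt τ n = ∑ n ∈ Finset.Ioc x (2 * x), nt τ n +
      ∑ n ∈ Finset.Ioc (2 * x) (4 * x), nt τ n + ∑ n ∈ Finset.Ioc (4 * x) (8 * x), nt τ n +
      ∑ n ∈ Finset.Ioc (8 * x) (9 * x), nt τ n := by
    rw [Finset.sum_Ioc_consecutive _ (by omega) (by omega), Finset.sum_Ioc_consecutive _ (by omega) (by omega),
      Finset.sum_Ioc_consecutive _ (by omega) (by omega)]
  have h1 := h 1 x x (2 * x) le_rfl (by norm_num) (by ring) (by omega) le_rfl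
  have h2 := h 2 (2 * x) (2 * x) (4 * x) (by norm_num) (by norm_num) rfl (by omega) (by omega)
  have h3 := h 4 (4 * x) (4 * x) (8 * x) (by norm_num) (by norm_num) rfl (by omega) (by omega)
  have h4 := h 8 (8 * x) (8 * x) (9 * x) (by norm_num) (by norm_num) rfl (by omega) (by omega)
  rw [e]
  have h5 := norm_add_le (∑ n ∈ Finset.Ioc x (2 * x), nt τ n + ∑ n ∈ Finset.Ioc (2 * x) (4 * x), nt τ n +
    ∑ n ∈ Finset.Ioc (4 * x) (8 * x), nt τ n) (∑ n ∈ Finset.Ioc (8 * x) (9 * x), nt τ n)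
  have h6 := norm_add_le (∑ n ∈ Finset.Ioc x (2 * x), nt τ n + ∑ n ∈ Finset.Ioc (2 * x) (4 * x), nt τ n)
    (∑ n ∈ Finset.Ioc (4 * x) (8 * x), nt τ n)
  have h7 := norm_add_le (∑ n ∈ Finset.Ioc x (2 * x), nt τ n) (∑ n ∈ Finset.Ioc (2 * x) (4 * x), nt τ n)
  have hL0 : 0 ≤ L := by
    have : 0 ≤ Real.log (8 * x) := Real.log_nonneg (by linarith)
    linarith
  set S := √|τ| with hSd
  set W := (x : ℝ) / |τ| with hW
  have hS0 : 0 ≤ S := Real.sqrt_nonneg _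
  have hW0 : 0 ≤ W := by positivity
  set D := 2 * Cs * L with hD
  have hD0 : 0 ≤ D := by positivity
  push_cast at h1 h2 h3 h4
  have e1 : 30 * Cs * L * (S + W) = 15 * (D * (S + W)) := by rw [hD]; ring
  rw [e1]
  have hDS : 0 ≤ D * S := mul_nonneg hD0 hS0
  have hDW : 0 ≤ D * W := mul_nonneg hD0 hW0
  nlinarith

/-- **SIT** -/
theorem sit : S_WIN → S_LOW → S_SMB → S_SIT := by
  intro hWIN hLOW hSMB ϑ hϑ0 hϑ1 hDPL B U
  obtain ⟨Cw, hCw, hW⟩ := hWIN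
  obtain ⟨Cs, hCs, hS⟩ := hSMB
  obtain ⟨Cm, hD1⟩ := hDPL B (U + 1)
  set C₀ := max Cm (U + 3) with hC₀
  obtain ⟨C₁, X₁, hD⟩ := hD1 C₀ (le_max_left _ _)
  set K := C₀ + U + 1 with hK
  obtain ⟨X₂, hLo⟩ := hLOW B C₀ K
  set C₁' := C₁ + U + 3 with hC₁'
  obtain ⟨X₄, hX₄⟩ := log_pow_le_rpow (C₀ + C₁')
  set G : ℝ := 2 + 7200 * Cs ^ 2 with hG
  obtain ⟨X₃, hX₃⟩ := exists_log_ge (Cw * (2 * G + 98))
  refine ⟨(U + 4) + C₁', max X₁ (max X₂ (max X₃ (max X₄ 1))), ?_⟩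
  intro x hx q hqz hq χ Y hY1 hYx
  have hxX1 : X₁ ≤ x := (le_max_left _ _).trans hx
  have hxX2 : X₂ ≤ x := ((le_max_left _ _).trans (le_max_right _ _)).trans hx
  have hxX3 : X₃ ≤ x := ((le_max_left _ _).trans ((le_max_right _ _).trans (le_max_right _ _))).trans hx
  have hxX4 : X₄ ≤ x := ((le_max_left _ _).trans ((le_max_right _ _).trans ((le_max_right _ _).trans
    (le_max_right _ _)))).trans hx
  have hx1 : 1 ≤ x := ((le_max_right _ _).trans ((le_max_right _ _).trans ((le_max_right _ _).trans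
    (le_max_right _ _)))).trans hx
  have hLbig := hX₃ x hxX3
  have hG0 : 0 ≤ G := by positivity
  have hLo' := hLo x hxX2 q hqz hq χ
  set L := Real.log x with hLdef
  have hCs2 : 1 ≤ Cs ^ 2 := one_le_pow₀ hCs
  have hL100 : 100 ≤ L := by nlinarith
  have hL1 : 1 ≤ L := by linarith
  have hL0 : 0 < L := by linarith
  have hx1' : (1 : ℝ) ≤ x := by exact_mod_cast hx1
  have hx0 : (0 : ℝ) < x := by linarith
  rcases Nat.lt_or_ge x (10 * Y) with hcase | hcase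
  · constructor
    · refine window_long x Y hYx hcase.le _ U K hL100 (by omega) ?_
      intro x1 x2 h1 h2
      exact (hLo' 0 (by rw [abs_zero]; positivity) x1 x2 h1 h2).1
    · refine window_long x Y hYx hcase.le _ U K hL100 (by omega) ?_
      intro x1 x2 h1 h2
      exact (hLo' 0 (by rw [abs_zero]; positivity) x1 x2 h1 h2).2
  -- the main case
  have hY1' : (1 : ℝ) ≤ Y := by
    have h1 : 1 ≤ (x : ℝ) ^ (ϑ : ℝ) := Real.one_le_rpow hx1' hϑ0.le
    have h2 : 1 ≤ L ^ ((U + 4) + C₁') := one_le_pow₀ hL1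
    exact (one_le_mul_of_one_le_of_one_le h1 h2).trans hY1
  have hYn : 1 ≤ Y := by exact_mod_cast hY1'
  have hY0 : (0 : ℝ) < Y := by linarith
  set T : ℝ := max ((x : ℝ) / Y * L ^ (U + 4)) (L ^ C₀) with hT
  have hT1 : L ^ C₀ ≤ T := le_max_right _ _
  have hT2 : (x : ℝ) / Y * L ^ (U + 4) ≤ T := le_max_left _ _
  have ha1 : 1 ≤ L ^ C₀ := one_le_pow₀ hL1
  have hT0 : 1 ≤ T := ha1.trans hT1
  have hT3 : T * L ^ C₁' ≤ (x : ℝ) ^ (1 - ϑ : ℝ) := by
    rw [hT, max_mul_of_nonneg _ _ (by positivity)]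
    apply max_le
    · have e : (x : ℝ) / Y * L ^ (U + 4) * L ^ C₁' = (x : ℝ) * L ^ ((U + 4) + C₁') / Y := by
        rw [pow_add L (U + 4)]; ring
      rw [e, div_le_iff₀ hY0]
      have h1 : (x : ℝ) = (x : ℝ) ^ (1 - ϑ : ℝ) * (x : ℝ) ^ (ϑ : ℝ) := by
        rw [← Real.rpow_add hx0]; simp
      calc (x : ℝ) * L ^ ((U + 4) + C₁')
          = (x : ℝ) ^ (1 - ϑ : ℝ) * ((x : ℝ) ^ (ϑ : ℝ) * L ^ ((U + 4) + C₁')) := by
            rw [← mul_assoc, ← h1]
        _ ≤ (x : ℝ) ^ (1 - ϑ : ℝ) * Y := mul_le_mul_of_nonneg_left hY1 (by positivity)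
    · rw [← pow_add]
      refine (hX₄ x hxX4).trans ?_
      exact Real.rpow_le_rpow_of_exponent_le hx1' (by linarith)
  have hT4 : T * L ^ C₁ ≤ (x : ℝ) ^ (1 - ϑ : ℝ) := by
    refine le_trans ?_ hT3
    exact mul_le_mul_of_nonneg_left (pow_le_pow_right₀ hL1 (by omega)) (by linarith)
  have hT5 : T ^ 2 ≤ (x : ℝ) ^ 2 / L ^ (U + 3) := by
    rw [le_div_iff₀ (by positivity)]
    have h0 : T * L ^ C₁' ≤ x := by
      refine hT3.trans ?_
      have := Real.rpow_le_rpow_of_exponent_le hx1' (show (1 - ϑ : ℝ) ≤ 1 by linarith)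
      rwa [Real.rpow_one] at this
    have h1 : (T * L ^ C₁') ^ 2 ≤ (x : ℝ) ^ 2 := pow_le_pow_left₀ (by positivity) h0 2
    rw [mul_pow, ← pow_mul] at h1
    refine le_trans ?_ h1
    apply mul_le_mul_of_nonneg_left _ (by positivity)
    exact pow_le_pow_right₀ hL1 (by omega)
  have hDx := hD x hxX1 q hqz hq χ T hT4 hT1 x (9 * x) le_rfl le_rfl
  set E := (x : ℝ) ^ 2 / L ^ (U + 1) with hE
  have hE0 : 0 ≤ E := by positivity
  have hEE : L ^ 2 * ((x : ℝ) ^ 2 / L ^ (U + 3)) = E := by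
    rw [hE, show U + 3 = (U + 1) + 2 by ring, pow_add L (U + 1) 2]
    field_simp
  have hlog8 : Real.log (8 * x) + 1 ≤ 2 * L := by
    rw [Real.log_mul (by norm_num) hx0.ne']
    have h2 : Real.log 8 ≤ 8 - 1 := Real.log_le_sub_one_of_pos (by norm_num)
    linarith
  -- the constant part
  have hconst : ∀ τ : ℝ, 1 ≤ |τ| → ‖∑ n ∈ Finset.Ioc x (9 * x), nt τ n‖ ^ 2 ≤
      1800 * Cs ^ 2 * L ^ 2 * ((x : ℝ) ^ 2 / τ ^ 2 + |τ|) := by
    intro τ hτ
    have h1 := sum_nt2 Cs hCs hS x hx1 L hlog8 τ hτ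
    have h2 := pow_le_pow_left₀ (norm_nonneg _) h1 2
    refine h2.trans ?_
    have h3 : (√|τ| + (x : ℝ) / |τ|) ^ 2 ≤ 2 * (√|τ| ^ 2 + ((x : ℝ) / |τ|) ^ 2) := add_sq_le
    rw [div_pow, sq_abs, Real.sq_sqrt (abs_nonneg τ)] at h3
    have h4 := mul_le_mul_of_nonneg_left h3 (by positivity : 0 ≤ 900 * Cs ^ 2 * L ^ 2)
    calc (30 * Cs * L * (√|τ| + (x : ℝ) / |τ|)) ^ 2 = 900 * Cs ^ 2 * L ^ 2 * (√|τ| + (x : ℝ) / |τ|) ^ 2 := by
          ring
      _ ≤ 900 * Cs ^ 2 * L ^ 2 * (2 * (|τ| + (x : ℝ) ^ 2 / τ ^ 2)) := h4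
      _ = 1800 * Cs ^ 2 * L ^ 2 * ((x : ℝ) ^ 2 / τ ^ 2 + |τ|) := by ring
  have hone : Continuous (fun τ => ‖∑ n ∈ Finset.Ioc x (9 * x), nt τ n‖ ^ 2) := by
    have h := (cont_S (fun _ => 1) x (9 * x)).norm
    simp only [one_mul] at h
    exact h.pow 2
  have hxa : (x : ℝ) ^ 2 / L ^ C₀ ≤ (x : ℝ) ^ 2 / L ^ (U + 3) := by
    apply div_le_div_of_nonneg_left (by positivity) (by positivity)
    exact pow_le_pow_right₀ hL1 (le_max_right _ _)
  have hfinc : 1800 * Cs ^ 2 * L ^ 2 * ((x : ℝ) ^ 2 / L ^ C₀ + T * T) ≤ 3600 * Cs ^ 2 * E := by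
    rw [← hEE]
    have h1 : (x : ℝ) ^ 2 / L ^ C₀ + T * T ≤ 2 * ((x : ℝ) ^ 2 / L ^ (U + 3)) := by
      have : T * T = T ^ 2 := by ring
      rw [this]; linarith
    have h2 := mul_le_mul_of_nonneg_left h1 (by positivity : 0 ≤ 1800 * Cs ^ 2 * L ^ 2)
    refine h2.trans (le_of_eq ?_)
    ring
  have hcint : ∫ τ in (L ^ C₀)..T, ‖∑ n ∈ Finset.Ioc x (9 * x), nt τ n‖ ^ 2 ≤ 3600 * Cs ^ 2 * E := by
    have := int_bound2 _ hone (1800 * Cs ^ 2 * L ^ 2) x (L ^ C₀) T T (by positivity) (by positivity)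
      (by positivity) hT1 (by
      intro τ h1 h2
      refine (hconst τ (by rw [abs_of_nonneg (by linarith)]; linarith)).trans ?_
      apply mul_le_mul_of_nonneg_left _ (by positivity)
      rw [abs_of_nonneg (by linarith)]
      linarith)
    exact this.trans hfinc
  have hcint' : ∫ τ in (-T)..(-L ^ C₀), ‖∑ n ∈ Finset.Ioc x (9 * x), nt τ n‖ ^ 2 ≤ 3600 * Cs ^ 2 * E := by
    rw [← intervalIntegral.integral_comp_neg (f := fun τ => ‖∑ n ∈ Finset.Ioc x (9 * x), nt τ n‖ ^ 2)]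
    have := int_bound2 (fun τ => ‖∑ n ∈ Finset.Ioc x (9 * x), nt (-τ) n‖ ^ 2) (hone.comp continuous_neg)
      (1800 * Cs ^ 2 * L ^ 2) x (L ^ C₀) T T (by positivity) (by positivity) (by positivity) hT1 (by
      intro τ h1 h2
      refine (hconst (-τ) (by rw [abs_neg, abs_of_nonneg (by linarith)]; linarith)).trans ?_
      apply mul_le_mul_of_nonneg_left _ (by positivity)
      rw [neg_sq, abs_neg, abs_of_nonneg (by linarith)]
      linarith)
    exact this.trans hfinc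
  have hlog9 : ∀ n ∈ Finset.Ioc x (9 * x), Real.log n + 1 ≤ 2 * L := by
    intro n hn
    simp only [Finset.mem_Ioc] at hn
    have hn0 : (0 : ℝ) < n := by exact_mod_cast (by omega : 0 < n)
    have h1 : Real.log n ≤ Real.log (9 * x) := Real.log_le_log hn0 (by exact_mod_cast hn.2)
    rw [Real.log_mul (by norm_num) hx0.ne'] at h1
    have h2 : Real.log 9 ≤ 9 - 1 := Real.log_le_sub_one_of_pos (by norm_num)
    linarith
  constructor
  · -- the von Mangoldt function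
    set δ : ℂ := if χ = 1 then 1 else 0 with hδ
    have hδ1 : ‖δ‖ ≤ 1 := by
      rw [hδ]; split_ifs <;> simp
    obtain ⟨d1, d2⟩ := hDx (cL χ) (Or.inl rfl)
    have hsq : ∀ τ : ℝ, ‖∑ n ∈ Finset.Ioc x (9 * x), (cL χ n - δ) * nt τ n‖ ^ 2 ≤
        2 * ‖∑ n ∈ Finset.Ioc x (9 * x), cL χ n * nt τ n‖ ^ 2 +
        2 * ‖∑ n ∈ Finset.Ioc x (9 * x), nt τ n‖ ^ 2 := by
      intro τ
      have e : ∑ n ∈ Finset.Ioc x (9 * x), (cL χ n - δ) * nt τ n =
          ∑ n ∈ Finset.Ioc x (9 * x), cL χ n * nt τ n - δ * ∑ n ∈ Finset.Ioc x (9 * x), nt τ n := by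
        rw [Finset.mul_sum, ← Finset.sum_sub_distrib]
        apply Finset.sum_congr rfl
        intro n _; ring
      rw [e]
      have h1 := norm_sub_le (∑ n ∈ Finset.Ioc x (9 * x), cL χ n * nt τ n)
        (δ * ∑ n ∈ Finset.Ioc x (9 * x), nt τ n)
      rw [norm_mul] at h1
      have h2 : ‖δ‖ * ‖∑ n ∈ Finset.Ioc x (9 * x), nt τ n‖ ≤ ‖∑ n ∈ Finset.Ioc x (9 * x), nt τ n‖ :=
        mul_le_of_le_one_left (norm_nonneg _) hδ1
      have h3 := pow_le_pow_left₀ (norm_nonneg _) (h1.trans (add_le_add_right h2 _)) 2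
      refine h3.trans ?_
      have := add_sq_le (a := ‖∑ n ∈ Finset.Ioc x (9 * x), cL χ n * nt τ n‖)
        (b := ‖∑ n ∈ Finset.Ioc x (9 * x), nt τ n‖)
      linarith
    have hcl : Continuous (fun τ => ‖∑ n ∈ Finset.Ioc x (9 * x), cL χ n * nt τ n‖ ^ 2) :=
      (cont_S (cL χ) x (9 * x)).norm.pow 2
    have hcd : Continuous (fun τ => ‖∑ n ∈ Finset.Ioc x (9 * x), (cL χ n - δ) * nt τ n‖ ^ 2) :=
      (cont_S (fun n => cL χ n - δ) x (9 * x)).norm.pow 2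
    have hgen : ∀ u v : ℝ, u ≤ v →
        ∫ τ in u..v, ‖∑ n ∈ Finset.Ioc x (9 * x), cL χ n * nt τ n‖ ^ 2 ≤ E →
        ∫ τ in u..v, ‖∑ n ∈ Finset.Ioc x (9 * x), nt τ n‖ ^ 2 ≤ 3600 * Cs ^ 2 * E →
        ∫ τ in u..v, ‖∑ n ∈ Finset.Ioc x (9 * x), (cL χ n - δ) * nt τ n‖ ^ 2 ≤ G * E := by
      intro u v huv h1 h2
      have i1 : IntervalIntegrable (fun τ => 2 * ‖∑ n ∈ Finset.Ioc x (9 * x), cL χ n * nt τ n‖ ^ 2)
        volume u v := (continuous_const.mul hcl).intervalIntegrable _ _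
      have i2 : IntervalIntegrable (fun τ => 2 * ‖∑ n ∈ Finset.Ioc x (9 * x), nt τ n‖ ^ 2)
        volume u v := (continuous_const.mul hone).intervalIntegrable _ _
      have h3 : ∫ τ in u..v, ‖∑ n ∈ Finset.Ioc x (9 * x), (cL χ n - δ) * nt τ n‖ ^ 2 ≤
          ∫ τ in u..v, (2 * ‖∑ n ∈ Finset.Ioc x (9 * x), cL χ n * nt τ n‖ ^ 2 +
            2 * ‖∑ n ∈ Finset.Ioc x (9 * x), nt τ n‖ ^ 2) :=
        intervalIntegral.integral_mono_on huv (hcd.intervalIntegrable _ _) (i1.add i2) (fun τ _ => hsq τ)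
      rw [intervalIntegral.integral_add i1 i2, intervalIntegral.integral_const_mul,
        intervalIntegral.integral_const_mul] at h3
      rw [hG]
      nlinarith
    refine window Cw hCw hW x Y hYn hcase (fun n => cL χ n - δ) U C₀ K T G hG0 hLbig hT1 hT2 (by omega)
      ?_ ?_ ?_ ?_
    · intro τ hτ
      exact (hLo' τ hτ x (9 * x) le_rfl le_rfl).1
    · exact hgen _ _ hT1 d1 hcint
    · exact hgen _ _ (by linarith) d2 hcint'
    · intro n hn
      refine (norm_sub_le _ _).trans ?_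
      have := norm_cL χ n
      have := hlog9 n hn
      linarith
  · obtain ⟨d1, d2⟩ := hDx (cM χ) (Or.inr rfl)
    have hGE : E ≤ G * E := by
      have : 1 ≤ G := by rw [hG]; nlinarith
      nlinarith
    refine window Cw hCw hW x Y hYn hcase (cM χ) U C₀ K T G hG0 hLbig hT1 hT2 (by omega)
      ?_ (d1.trans hGE) (d2.trans hGE) ?_
    · intro τ hτ
      exact (hLo' τ hτ x (9 * x) le_rfl le_rfl).2
    · intro n hn
      have := norm_cM χ n
      linarith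

end Pool.Agent.V5helper9.CR6
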